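import Pool.Agent.Lib.MP_28260b_nt.Sg.Step
import Pool.Agent.Lib.MP_6a20cc_nt.DpD

/-! Every positive even number is a difference of two divisor sums infinitely often. -/

set_option autoImplicit false

namespace Pool.Agent.Lib.MP_28260b_nt.Sg

open Finset ArithmeticFunction Pool.Agent.Lib.MP_6a20cc_nt

/-- `v` is the divisor sum of a large number without small prime factors -/
def Val (B T : ℕ) (v : ℤ) : Prop :=
  ∃ m : ℕ, T < m ∧ (∀ w, 0 < w → w ≤ B → Nat.Coprime w m) ∧ ((sigma 1 m : ℕ) : ℤ) = v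

theorem core (hP : Dp.Parts) (α : Fin 5 → ℕ) (ξ : Fin 5 → ℤ) (hα : ∀ c, 0 < α c)
    (hΔ : ∀ c c', c ≠ c' → (α c : ℤ) * ξ c' ≠ α c' * ξ c) (B0 T : ℕ) :
    ∃ (x : ℤ) (c c' : Fin 5), c < c' ∧ Val B0 T (2 * (α c * x + ξ c)) ∧
      Val B0 T (2 * (α c' * x + ξ c')) := by
  classical
  obtain ⟨t, t1, ht⟩ := hP 5 1 (1 / 40) (by norm_num)
  obtain ⟨B, b1, b2, b3, b4⟩ : ∃ B : ℕ, B0 ≤ B ∧ 2 ≤ B ∧ 5 * t ≤ B ∧
      ∀ c c', 2 * ((α c : ℤ) * ξ c' - α c' * ξ c) ≤ B := by
    refine ⟨B0 + 2 + 5 * t + ∑ p : Fin 5 × Fin 5,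
      (2 * ((α p.1 : ℤ) * ξ p.2 - α p.2 * ξ p.1)).natAbs, by omega, by omega, by omega,
      fun c c' => ?_⟩
    have h := single_le_sum (f := fun p : Fin 5 × Fin 5 =>
      (2 * ((α p.1 : ℤ) * ξ p.2 - α p.2 * ξ p.1)).natAbs) (fun _ _ => Nat.zero_le _)
      (mem_univ (c, c'))
    have h' := Int.le_natAbs (a := 2 * ((α c : ℤ) * ξ c' - α c' * ξ c))
    simp only at h
    omega
  obtain ⟨W, x, r, k, s, hW, hW0, h1, h2⟩ := system (ι := Fin 5 × Fin t) Prod.fst α ξ B
    (B.factorial * ∏ c, α c) (Nat.mul_pos B.factorial_pos (prod_pos fun c _ => hα c)) (by omega)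
    (fun c => (dvd_prod_of_mem _ (mem_univ c)).mul_left _) b4 univ
  simp only [mem_univ, forall_true_left] at h1 h2
  choose A hA using fun i => (h1 i).2.2.2.2.1
  choose q hq hq' using fun i => (h1 i).2.2.2.2.2
  have hA' : ∀ i, (W : ℤ) = s i * s i * A i := fun i => by exact_mod_cast hA i
  have sp : ∀ i, 0 < s i := fun i => by
    have := (h1 i).2.2.2.1
    omega
  have Ap : ∀ i, 0 < A i := fun i => Nat.pos_of_ne_zero fun e => by
    have := hA i
    rw [e, mul_zero] at this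
    omega
  have sm : ∀ l, 0 < l → l ≤ B → l ∣ W := fun l h h' =>
    ((Nat.dvd_factorial h h').mul_right _).trans hW0
  have aw : ∀ c, α c ∣ W := fun c =>
    ((dvd_prod_of_mem _ (mem_univ c)).mul_left _).trans hW0
  have la : ∀ (l : ℕ) i, l.Prime → l ∣ W → (l : ℤ) ∣ (2 * α i.1 * (s i * A i) : ℕ) :=
    fun l i pl hl => by
      rw [hA i, mul_assoc] at hl
      exact Int.natCast_dvd_natCast.2 (Dvd.dvd.mul_left
        (((Nat.Prime.dvd_mul pl).1 hl).elim (fun h => h.mul_right _) id) _)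
  have ap : ∀ i : Fin 5 × Fin t, 0 < 2 * α i.1 * (s i * A i) := fun i =>
    Nat.mul_pos (Nat.mul_pos two_pos (hα _)) (Nat.mul_pos (sp i) (Ap i))
  have inf := ht (fun j i => (2 * α j * (s (j, i) * A (j, i)) : ℕ)) (fun j i => 2 * q (j, i) - 1)
    (fun j i => by exact_mod_cast ap (j, i)) (by
      rintro ⟨c, i⟩ ⟨c', i'⟩ e
      obtain ⟨e1, e2⟩ := Prod.mk.inj e
      simp only at e1 e2
      push_cast at e1
      have w0 : (W : ℤ) ≠ 0 := by exact_mod_cast hW.ne'
      have k1 : (α c : ℤ) * s (c', i') = α c' * s (c, i) := by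
        refine mul_left_cancel₀ w0 ?_
        have s0 : (2 : ℤ) ≠ 0 := two_ne_zero
        refine mul_left_cancel₀ s0 ?_
        linear_combination (s (c, i) : ℤ) * s (c', i') * e1 +
          2 * (α c : ℤ) * s (c', i') * hA' (c, i) - 2 * (α c' : ℤ) * s (c, i) * hA' (c', i')
      have k2 : q (c, i) = q (c', i') := by omega
      by_cases hc : c = c'
      · subst hc
        have a0 : (α c : ℤ) ≠ 0 := by exact_mod_cast (hα c).ne'
        have := mul_left_cancel₀ a0 k1
        exact h2 _ _ (by exact_mod_cast this.symm)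
      · refine (hΔ c c' hc ?_).elim
        have k3 := hq (c, i)
        have k4 := hq (c', i')
        simp only at k3 k4
        rw [k2] at k3
        linear_combination (α c : ℤ) * k4 - (α c' : ℤ) * k3 + q (c', i') * k1)
    (fun l pl => by
      by_cases hl : l ∣ W
      · exact ⟨0, fun j i => by simpa using hq' (j, i) l pl hl⟩
      · obtain ⟨n, hn⟩ := avoid (ι := Fin 5 × Fin t)
          (fun i => (2 * α i.1 * (s i * A i) : ℕ)) (fun i => 2 * q i - 1) l pl
          (by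
            rw [Fintype.card_prod, Fintype.card_fin, Fintype.card_fin]
            by_contra h
            exact hl (sm l pl.pos (by omega)))
          (fun i h => by
            rcases (Nat.Prime.dvd_mul pl).1 (Int.natCast_dvd_natCast.1 h) with h | h
            · rcases (Nat.Prime.dvd_mul pl).1 h with h | h
              · exact hl (h.trans (sm 2 two_pos b2))
              · exact hl (h.trans (aw _))
            · exact hl (h.trans ⟨s i, by rw [hA i]; ring⟩))
        exact ⟨n, fun j i => hn (j, i)⟩)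
    (fun _ => 1) (fun _ => zero_le_one)
  obtain ⟨n, hn, hT⟩ := inf.exists_gt (T + ∑ i, (r i + (2 * q i - 1).natAbs))
  have val : ∀ i : Fin 5 × Fin t, Prime (((2 * α i.1 * (s i * A i) : ℕ) : ℤ) * n + (2 * q i - 1)) →
      Val B0 T (2 * (α i.1 * (W * n + x) + ξ i.1)) := by
    intro i hp
    have k0 := single_le_sum (f := fun i => r i + (2 * q i - 1).natAbs)
      (fun _ _ => Nat.zero_le _) (mem_univ i)
    have k1 : n ≤ 2 * α i.1 * (s i * A i) * n := Nat.le_mul_of_pos_left _ (ap i)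
    obtain ⟨p, ep⟩ : ∃ p : ℕ, (p : ℤ) = ((2 * α i.1 * (s i * A i) : ℕ) : ℤ) * n + (2 * q i - 1) :=
      ⟨_, Int.toNat_of_nonneg (by rw [← Nat.cast_mul]; omega)⟩
    have pT : T + r i < p := by
      rw [← Nat.cast_mul] at ep
      omega
    have pp : p.Prime := Nat.prime_iff_prime_int.2 (ep ▸ hp)
    have pW : ¬ p ∣ W := fun h => hq' i p pp h (by
      have := (dvd_refl (p : ℤ)).sub ((la p i pp h).mul_right n)
      rwa [show (p : ℤ) - ((2 * α i.1 * (s i * A i) : ℕ) : ℤ) * n = 2 * q i - 1 by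
        linear_combination ep] at this)
    obtain ⟨r1, r2, r3, -, -⟩ := h1 i
    have co : Nat.Coprime (r i ^ k i) p :=
      Nat.Coprime.pow_left _ ((Nat.coprime_primes r1 pp).2 (by omega))
    refine ⟨r i ^ k i * p, ?_, fun w w0 w1 => Nat.Coprime.mul_right (Nat.Coprime.pow_right _ ?_) ?_,
      ?_⟩
    · have := Nat.le_mul_of_pos_left p (pow_pos r1.pos (k i))
      omega
    · exact ((Nat.Prime.coprime_iff_not_dvd r1).2 fun h => by
        have := Nat.le_of_dvd w0 h
        omega).symm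
    · exact ((Nat.Prime.coprime_iff_not_dvd pp).2 fun h =>
        pW (h.trans (sm w w0 (by omega)))).symm
    · have e1 : sigma 1 p = 1 + p := by
        simpa [sum_range_succ] using sigma_one_apply_prime_pow (i := 1) pp
      rw [isMultiplicative_sigma.map_mul_of_coprime co, ← r3, e1]
      push_cast at ep ⊢
      linear_combination (s i : ℤ) * ep - 2 * hq i - 2 * (α i.1 : ℤ) * n * hA' i
  simp only [Set.mem_ofPred_eq, sum_const, card_univ, Fintype.card_fin, nsmul_eq_mul,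
    mul_one] at hn
  obtain ⟨c, hc, c', hc', ne⟩ := one_lt_card.1 (show 1 < #(univ.filter fun j : Fin 5 =>
      1 ≤ #(univ.filter fun i => Prime (((2 * α j * (s (j, i) * A (j, i)) : ℕ) : ℤ) * n +
        (2 * q (j, i) - 1)) ∧ 0 < ((2 * α j * (s (j, i) * A (j, i)) : ℕ) : ℤ) * n +
        (2 * q (j, i) - 1))) from by
    refine (Nat.one_lt_cast (α := ℝ)).1 (lt_of_lt_of_le (by norm_num) hn))
  obtain ⟨i, hi⟩ := card_pos.1 (mem_filter.1 hc).2
  obtain ⟨i', hi'⟩ := card_pos.1 (mem_filter.1 hc').2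
  have v1 := val (c, i) (mem_filter.1 hi).2.1
  have v2 := val (c', i') (mem_filter.1 hi').2.1
  rcases lt_or_gt_of_ne ne with h | h
  · exact ⟨_, c, c', h, v1, v2⟩
  · exact ⟨_, c', c, h, v2, v1⟩

def al : Fin 5 → ℕ := ![2581656, 840224, 17149572, 1322832, 3334639]

def et : Fin 5 → ℕ := ![12785, 4161, 84929, 6551, 16514]

def ww : Fin 5 → Fin 5 → ℕ := ![![1, 48, 50, 61, 16], ![361, 1, 722, 361, 64],
  ![13, 28, 1, 12, 4], ![81, 241, 162, 1, 81], ![14, 21, 22, 33, 1]]

theorem tab1 : ∀ c, 0 < al c := by decide +kernel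

theorem tab2 : ∀ c c', c ≠ c' → al c * et c' ≠ al c' * et c := by decide +kernel

theorem tab3 : ∀ c c', 0 < ww c c' ∧ ww c c' ≤ 722 := by decide +kernel

theorem tab4 : ∀ c c', c < c' →
    (∑ d ∈ (ww c' c).divisors, d) * al c' = (∑ d ∈ (ww c c').divisors, d) * al c ∧
    (∑ d ∈ (ww c' c).divisors, d) * et c' = (∑ d ∈ (ww c c').divisors, d) * et c + 1 := by
  decide +kernel

theorem main (hP : Dp.Parts) (d : ℕ) (hd : 0 < d) (he : Even d) :
    {ab : ℕ × ℕ | 0 < ab.1 ∧ 0 < ab.2 ∧ sigma 1 ab.1 = sigma 1 ab.2 + d}.Infinite := by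
  obtain ⟨e, rfl⟩ := he
  have e0 : (e : ℤ) ≠ 0 := by omega
  refine Set.Infinite.of_image Prod.snd (Set.infinite_of_forall_exists_gt fun T => ?_)
  obtain ⟨x, c, c', hc, ⟨m, m1, m2, m3⟩, m', n1, n2, n3⟩ := core hP al (fun c => e * et c) tab1
    (fun c c' h k => tab2 c c' h (by
      have : (al c : ℤ) * et c' = al c' * et c := mul_left_cancel₀ e0 (by linear_combination k)
      exact_mod_cast this)) 722 T
  have w1 := tab3 c c'
  have w2 := tab3 c' c
  refine ⟨ww c c' * m, ⟨(ww c' c * m', ww c c' * m), ⟨Nat.mul_pos w2.1 (by omega),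
    Nat.mul_pos w1.1 (by omega), ?_⟩, rfl⟩, m1.trans_le (Nat.le_mul_of_pos_left _ w1.1)⟩
  obtain ⟨k1, k2⟩ := tab4 c c' hc
  rw [← sigma_one_apply, ← sigma_one_apply] at k1 k2
  simp only
  rw [isMultiplicative_sigma.map_mul_of_coprime (n2 _ w2.1 w2.2),
    isMultiplicative_sigma.map_mul_of_coprime (m2 _ w1.1 w1.2)]
  zify at k1 k2 ⊢
  rw [m3, n3]
  linear_combination 2 * x * k1 + 2 * (e : ℤ) * k2

end Pool.Agent.Lib.MP_28260b_nt.Sg
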