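import Mathlib

/-! Systems of linear forms whose prime values give values of the divisor sum. -/

set_option autoImplicit false

namespace Pool.Agent.Lib.MP_28260b_nt.Sg

open Finset ArithmeticFunction

/-- a value of the divisor sum at a prime power that avoids two classes modulo each of
finitely many primes -/
theorem pick (N B : ℕ) (hN : N ≠ 0) (u : ℤ) : ∃ r k s : ℕ, r.Prime ∧ B < r ∧
    s = sigma 1 (r ^ k) ∧ B < s ∧
    ∀ l : ℕ, l.Prime → l ∣ N → ¬ (l : ℤ) ∣ s ∧ ¬ (l : ℤ) ∣ 2 * u - s := by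
  classical
  set G := N.primeFactors.filter fun l : ℕ => (l : ℤ) ∣ 2 * u - 1 with hG
  set H := N.primeFactors.filter fun l : ℕ => ¬ (l : ℤ) ∣ 2 * u - 1 with hH
  set g := ∏ l ∈ G, l with hg
  set h := ∏ l ∈ H, l with hh
  have g0 : 0 < g := prod_pos fun l hl => (Nat.prime_of_mem_primeFactors (mem_filter.1 hl).1).pos
  have h0 : 0 < h := prod_pos fun l hl => (Nat.prime_of_mem_primeFactors (mem_filter.1 hl).1).pos
  have co : Nat.Coprime g h := Nat.Coprime.prod_left fun l hl => Nat.Coprime.prod_right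
    fun m hm => (Nat.coprime_primes (Nat.prime_of_mem_primeFactors (mem_filter.1 hl).1)
      (Nat.prime_of_mem_primeFactors (mem_filter.1 hm).1)).2 (by
        rintro rfl
        exact (mem_filter.1 hm).2 (mem_filter.1 hl).2)
  obtain ⟨x, y, hxy⟩ : IsCoprime (g : ℤ) h := Nat.isCoprime_iff_coprime.2 co
  have c1 : IsCoprime (y * h - x * g) (g : ℤ) := ⟨1, 2 * x, by linear_combination hxy⟩
  have c2 : IsCoprime (y * h - x * g) (h : ℤ) := ⟨-1, 2 * y, by linear_combination hxy⟩
  obtain ⟨r, hr, pr, hm⟩ := Nat.forall_exists_prime_gt_and_zmodEq B (q := g * h)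
    (a := y * h - x * g) (by positivity) (by push_cast; exact c1.mul_right c2)
  obtain ⟨z, hz⟩ := hm.symm.dvd
  push_cast at hz
  obtain ⟨k, hk⟩ : ∃ k, k + 2 = 4 * g := ⟨4 * g - 2, by omega⟩
  have es : sigma 1 (r ^ k) = ∑ i ∈ range (k + 1), r ^ i := sigma_one_apply_prime_pow pr
  refine ⟨r, k, _, pr, hr, rfl, ?_, fun l pl hl => ?_⟩
  · rw [es]
    refine hr.trans_le ?_
    simpa using single_le_sum (f := fun i => r ^ i) (fun _ _ => Nat.zero_le _)
      (mem_range.2 (show 1 < k + 1 by omega))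
  have hl' : l ∈ N.primeFactors := Nat.mem_primeFactors.2 ⟨pl, hl, hN⟩
  have : Fact l.Prime := ⟨pl⟩
  have hz' := congrArg (Int.cast : ℤ → ZMod l) hz
  have hxy' := congrArg (Int.cast : ℤ → ZMod l) hxy
  push_cast at hz' hxy'
  rw [← ZMod.intCast_zmod_eq_zero_iff_dvd, ← ZMod.intCast_zmod_eq_zero_iff_dvd, es]
  push_cast
  by_cases e : (l : ℤ) ∣ 2 * u - 1
  · have lg : (g : ZMod l) = 0 :=
      (ZMod.natCast_eq_zero_iff _ _).2 (dvd_prod_of_mem _ (mem_filter.2 ⟨hl', e⟩))
    have r1 : (r : ZMod l) = 1 := by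
      rw [lg] at hz' hxy'
      linear_combination hz' + hxy'
    have hk' := congrArg (Nat.cast : ℕ → ZMod l) hk
    push_cast at hk'
    rw [lg] at hk'
    have e' := (ZMod.intCast_zmod_eq_zero_iff_dvd _ _).2 e
    push_cast at e'
    have es' : ∑ i ∈ range (k + 1), (r : ZMod l) ^ i = -1 := by
      simp only [r1, one_pow, sum_const, card_range, nsmul_eq_mul, mul_one]
      push_cast
      linear_combination hk'
    rw [es']
    refine ⟨by simp, fun h2 => ?_⟩
    have h3 : (2 : ZMod l) = 0 := by linear_combination h2 - e'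
    rw [h3] at e'
    simp at e'
  · have lh : (h : ZMod l) = 0 :=
      (ZMod.natCast_eq_zero_iff _ _).2 (dvd_prod_of_mem _ (mem_filter.2 ⟨hl', e⟩))
    have r1 : (r : ZMod l) = -1 := by
      rw [lh] at hz' hxy'
      linear_combination hz' - hxy'
    have es' : ∑ i ∈ range (k + 1), (r : ZMod l) ^ i = 1 := by
      rw [r1, neg_one_geom_sum, if_neg]
      rw [Nat.even_iff]
      omega
    rw [es']
    refine ⟨by simp, fun h2 => e ((ZMod.intCast_zmod_eq_zero_iff_dvd _ _).1 ?_)⟩
    push_cast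
    exact h2

/-- the form `2 (a (W n + x) + b) / s - 1` is integral and prime to `W` -/
def Ok (a b : ℤ) (W : ℕ) (x : ℤ) (s : ℕ) : Prop :=
  s * s ∣ W ∧ ∃ q : ℤ, a * x + b = s * q ∧ ∀ l : ℕ, l.Prime → l ∣ W → ¬ (l : ℤ) ∣ 2 * q - 1

theorem system {ι κ : Type} [DecidableEq ι] (cl : ι → κ) (α : κ → ℕ) (ξ : κ → ℤ) (B W0 : ℕ)
    (h0 : 0 < W0) (hB1 : 1 ≤ B) (hα : ∀ c, α c ∣ W0)
    (hB : ∀ c c', 2 * ((α c : ℤ) * ξ c' - α c' * ξ c) ≤ B) (S : Finset ι) :
    ∃ (W : ℕ) (x : ℤ) (r k s : ι → ℕ), 0 < W ∧ W0 ∣ W ∧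
      (∀ i ∈ S, (r i).Prime ∧ B < r i ∧ s i = sigma 1 (r i ^ k i) ∧ B < s i ∧
        Ok (α (cl i)) (ξ (cl i)) W x (s i)) ∧ ∀ i ∈ S, ∀ j ∈ S, s i = s j → i = j := by
  induction S using Finset.induction_on with
  | empty => exact ⟨W0, 0, fun _ => 0, fun _ => 0, fun _ => 0, h0, dvd_rfl, by simp, by simp⟩
  | insert i0 S hi ih =>
    obtain ⟨W, x, r, k, s, hW, hW0, h1, h2⟩ := ih
    set c := cl i0 with hc
    have ap : ∀ c, 1 ≤ α c := fun c => Nat.pos_of_dvd_of_pos (hα c) h0
    set E : ι → ℤ := fun i => 2 * ((α c : ℤ) * ξ (cl i) - α (cl i) * ξ c) - α c * s i with hE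
    have hE0 : ∀ i ∈ S, (E i).natAbs ≠ 0 := fun i hi => by
      have k1 := hB c (cl i)
      have k2 : (B : ℤ) < s i := by exact_mod_cast (h1 i hi).2.2.2.1
      have k3 : (1 : ℤ) ≤ α c := by exact_mod_cast ap c
      have k4 : (0 : ℤ) ≤ B := by positivity
      rw [Int.natAbs_ne_zero]
      simp only [hE]
      nlinarith
    obtain ⟨r0, k0, s0, p1, p2, p3, p4, p5⟩ := pick (W * ∏ i ∈ S, (E i).natAbs) B
      (Nat.mul_ne_zero hW.ne' (prod_ne_zero_iff.2 hE0)) (α c * x + ξ c)
    have cw : Nat.Coprime W s0 := Nat.coprime_of_dvd fun l pl hl hl' =>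
      (p5 l pl (hl.mul_right _)).1 (Int.natCast_dvd_natCast.2 hl')
    have ca : Nat.Coprime (α c * W) (s0 * s0) := by
      have := (Nat.Coprime.coprime_dvd_left ((hα c).trans hW0) cw).mul_left cw
      exact this.mul_right this
    obtain ⟨y, z, hyz⟩ : IsCoprime ((α c * W : ℕ) : ℤ) (s0 * s0 : ℕ) :=
      Nat.isCoprime_iff_coprime.2 ca
    push_cast at hyz
    set u : ℤ := α c * x + ξ c with hu
    have e0 : (α c : ℤ) * (x - W * (y * u)) + ξ c = s0 * (s0 * (z * u)) := by
      linear_combination (-u) * hyz - hu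
    have s0p : 0 < s0 := by omega
    refine ⟨W * (s0 * s0), x - W * (y * u), Function.update r i0 r0, Function.update k i0 k0,
      Function.update s i0 s0, by positivity, hW0.mul_right _, fun i hi' => ?_,
      fun i hi' j hj' e => ?_⟩
    · rcases mem_insert.1 hi' with rfl | hi'
      · simp only [Function.update_self]
        refine ⟨p1, p2, p3, p4, Dvd.intro_left _ rfl, _, e0, fun l pl hl hd => ?_⟩
        rcases (Nat.Prime.dvd_mul pl).1 hl with hl | hl
        · refine (p5 l pl (hl.mul_right _)).2 ?_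
          have k1 : (l : ℤ) ∣ W := Int.natCast_dvd_natCast.2 hl
          have k2 : 2 * u - s0 = s0 * (2 * (s0 * (z * u)) - 1) + W * (2 * α c * (y * u)) := by
            linear_combination (-2 * u) * hyz
          rw [k2]
          exact (hd.mul_left _).add (k1.mul_right _)
        · have k1 : (l : ℤ) ∣ s0 :=
            Int.natCast_dvd_natCast.2 (((Nat.Prime.dvd_mul pl).1 hl).elim id id)
          have k2 : (l : ℤ) ∣ 1 := by
            have := ((k1.mul_right (z * u)).mul_left 2).sub hd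
            simpa using this
          exact pl.one_lt.ne' (Nat.dvd_one.1 (Int.natCast_dvd_natCast.1 k2))
      · have ne : i ≠ i0 := fun e => hi (e ▸ hi')
        simp only [Function.update_of_ne ne]
        obtain ⟨q1, q2, q3, q4, ⟨A, hA⟩, q, q5, q6⟩ := h1 i hi'
        have hA' : (W : ℤ) = s i * s i * A := by exact_mod_cast hA
        refine ⟨q1, q2, q3, q4, Dvd.dvd.mul_right ⟨A, hA⟩ _,
          q - α (cl i) * (s i * A) * (y * u), by linear_combination q5 - α (cl i) * (y * u) * hA',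
          fun l pl hl hd => ?_⟩
        rcases (Nat.Prime.dvd_mul pl).1 hl with hl | hl
        · refine q6 l pl hl ?_
          have k1 : l ∣ s i * A := by
            rw [hA, mul_assoc] at hl
            exact ((Nat.Prime.dvd_mul pl).1 hl).elim (fun h => h.mul_right _) id
          have k2 : (l : ℤ) ∣ s i * A := by exact_mod_cast k1
          have k3 : 2 * q - 1 = (2 * (q - α (cl i) * (s i * A) * (y * u)) - 1) +
              (s i * A) * (2 * α (cl i) * (y * u)) := by ring
          rw [k3]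
          exact hd.add (k2.mul_right _)
        · have k1 : (l : ℤ) ∣ s0 :=
            Int.natCast_dvd_natCast.2 (((Nat.Prime.dvd_mul pl).1 hl).elim id id)
          refine (p5 l pl (Dvd.dvd.mul_left ?_ _)).1 k1
          refine Dvd.dvd.trans ?_ (dvd_prod_of_mem _ hi')
          rw [← Int.natCast_dvd]
          have k3 : E i = (α c * s i) * (2 * (q - α (cl i) * (s i * A) * (y * u)) - 1) -
              s0 * (2 * α (cl i) * (s0 * (z * u))) := by
            simp only [hE]
            linear_combination 2 * (α c : ℤ) * q5 - 2 * (α (cl i) : ℤ) * e0 -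
              2 * (α c : ℤ) * α (cl i) * (y * u) * hA'
          rw [k3]
          exact (hd.mul_left _).sub (k1.mul_right _)
    · have key : ∀ j ∈ S, s0 ≠ s j := fun j hj e => by
        have k1 : s j ∣ W := (Dvd.intro _ rfl).trans (h1 j hj).2.2.2.2.1
        have k2 := Nat.Coprime.eq_one_of_dvd cw.symm (e ▸ k1)
        omega
      rcases mem_insert.1 hi' with a1 | a1 <;> rcases mem_insert.1 hj' with a2 | a2
      · exact a1.trans a2.symm
      · have ne : j ≠ i0 := fun e => hi (e ▸ a2)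
        rw [a1, Function.update_self, Function.update_of_ne ne] at e
        exact (key j a2 e).elim
      · have ne : i ≠ i0 := fun e => hi (e ▸ a1)
        rw [a2, Function.update_self, Function.update_of_ne ne] at e
        exact (key i a1 e.symm).elim
      · have ne : i ≠ i0 := fun e => hi (e ▸ a1)
        have ne' : j ≠ i0 := fun e => hi (e ▸ a2)
        rw [Function.update_of_ne ne, Function.update_of_ne ne'] at e
        exact h2 i a1 j a2 e

theorem avoid {ι : Type} [Fintype ι] (a b : ι → ℤ) (l : ℕ) (pl : l.Prime)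
    (hl : Fintype.card ι < l) (ha : ∀ i, ¬ (l : ℤ) ∣ a i) :
    ∃ n : ℕ, ∀ i, ¬ (l : ℤ) ∣ a i * n + b i := by
  classical
  have : Fact l.Prime := ⟨pl⟩
  obtain ⟨z, -, hz⟩ := exists_mem_notMem_of_card_lt_card
    (s := univ.image fun i => -(b i : ZMod l) / (a i : ZMod l)) (t := univ)
    (card_image_le.trans_lt (by rw [card_univ, card_univ, ZMod.card]; exact hl))
  refine ⟨z.val, fun i h => hz (mem_image.2 ⟨i, mem_univ _, ?_⟩)⟩
  have h1 := (ZMod.intCast_zmod_eq_zero_iff_dvd _ _).2 h
  have h2 : (a i : ZMod l) ≠ 0 := fun e => ha i ((ZMod.intCast_zmod_eq_zero_iff_dvd _ _).1 e)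
  push_cast at h1
  rw [ZMod.natCast_zmod_val] at h1
  rw [div_eq_iff h2]
  linear_combination -h1

end Pool.Agent.Lib.MP_28260b_nt.Sg
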